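import Mathlib
import Pool.Agent.Helper85.TournList

set_option autoImplicit false

/-!
# Independent switches between two realisations

Let `T` be a tournament on a finite set realising a list `L`, and let `g` be a permutation such
that `N⁺(g v)` are again the out-neighbourhoods of a tournament (a second realisation of `L`).
Let `r` be any equivalence relation that contains all pairs `(v, g v)` and such that every vertex
outside a class is homogeneous along `g` to that class.  Then the second realisation can be
switched on independently on every class: `L` has at least `2 ^ c` realisations, where `c` is the
number of classes containing a vertex moved by `g`.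
-/

namespace Pool.Agent.Results.MP_398f0f_lc.IndependentSwitches

open Pool.Agent.Helper85.TournList

theorem result {V : Type*} [Finite V] (L : V → Set V) (T : V → V → Prop) (g : Equiv.Perm V)
    (hT : IsTournament T) (hL : Realises L T) (hT' : IsTournament fun v w => T (g v) w)
    (r : Setoid V) (hg : ∀ v, r v (g v)) (hr : ∀ w u, ¬ r w u → (T w u ↔ T w (g u))) :
    2 ^ Nat.card {c : Quotient r // ∃ v, Quotient.mk r v = c ∧ g v ≠ v} ≤
      Nat.card {S : V → V → Prop // IsTournament S ∧ Realises L S} :=
  switches L T g hT hL hT' r hg hr

end Pool.Agent.Results.MP_398f0f_lc.IndependentSwitches
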