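import Mathlib
import Pool.Agent.Helper91.PolyTime.Reduction
import Pool.Agent.Helper91.PolyTime.Verifier
import Pool.Agent.Helper97.NLT.Defs
import Pool.Agent.Helper97.NLT.Ptime
import Pool.Agent.Helper97.NLT.Csp

/-!
# The tournament neighbourhood list problem is NP-complete
-/

open Turing Computability

namespace Pool.Agent.Results.MP_398f0f_lc.NPComplete

open Pool.Agent.Helper97.NLT
open Pool.Agent.Helper91.PolyTime Pool.Agent.Helper91.CookLevin Pool.Agent.Helper91.Reduction
open Pool.Agent.Helper91.Verifier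
open Pool.Agent.Helper91.Triangle (Five)

/-! ### Membership -/

/-- A bit of a string (`false` outside the string). -/
def bit (l : List Bool) (i : ℕ) : Bool := l[i]?.getD false

/-- The string `y` is the matrix of a permutation that turns the matrix `x` into a tournament. -/
def certB (n : ℕ) (x y : List Bool) : Bool :=
  ((List.range n).all fun v => (List.range n).any fun i => bit y (v * n + i)) &&
  (((List.range n).all fun v => (List.range n).all fun w => (List.range n).all fun i =>
    !(bit y (v * n + i) && bit y (w * n + i)) || decide (v = w)) &&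
  ((List.range n).all fun v => (List.range n).all fun w => (List.range n).all fun i =>
    (List.range n).all fun j => !(bit y (v * n + i) && bit y (w * n + j)) ||
      if v = w then !(bit x (i * n + v)) else decide (bit x (i * n + w) = !(bit x (j * n + v)))))

/-- The verifier. -/
def verifier (a : List Bool × List Bool) : Bool :=
  (List.range (a.1.length + 1)).any fun n => decide (n * n = a.1.length) && certB n a.1 a.2

section ptime

variable {α : Type*} [PEnc α]

lemma ptf_bit {l : α → List Bool} {i : α → ℕ} (hl : PTF l) (hi : PTF i) :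
    PTF (fun a => bit (l a) (i a)) :=
  (PTF.ofFinite (fun o : Option Bool => o.getD false)).comp (PTF.getElem? hi hl)

lemma ptf_certB {n : α → ℕ} {x y : α → List Bool} (hn : PTF n) (hx : PTF x) (hy : PTF y) :
    PTF (fun a => certB (n a) (x a) (y a)) := by
  have hn1 : PTF (fun p : α × ℕ => n p.1) := hn.comp PTF.id.fst
  have hy1 : PTF (fun p : α × ℕ => y p.1) := hy.comp PTF.id.fst
  have hn2 : PTF (fun p : (α × ℕ) × ℕ => n p.1.1) := hn.comp PTF.id.fst.fst
  have hy2 : PTF (fun p : (α × ℕ) × ℕ => y p.1.1) := hy.comp PTF.id.fst.fst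
  have hn3 : PTF (fun p : ((α × ℕ) × ℕ) × ℕ => n p.1.1.1) := hn.comp PTF.id.fst.fst.fst
  have hy3 : PTF (fun p : ((α × ℕ) × ℕ) × ℕ => y p.1.1.1) := hy.comp PTF.id.fst.fst.fst
  have hn4 : PTF (fun p : (((α × ℕ) × ℕ) × ℕ) × ℕ => n p.1.1.1.1) :=
    hn.comp PTF.id.fst.fst.fst.fst
  have hy4 : PTF (fun p : (((α × ℕ) × ℕ) × ℕ) × ℕ => y p.1.1.1.1) :=
    hy.comp PTF.id.fst.fst.fst.fst
  have hx4 : PTF (fun p : (((α × ℕ) × ℕ) × ℕ) × ℕ => x p.1.1.1.1) :=
    hx.comp PTF.id.fst.fst.fst.fst
  unfold certB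
  refine PTF.and ?_ (PTF.and ?_ ?_)
  · refine PTF.all (PTF.range hn) (PTF.any (PTF.range hn1) ?_)
    exact ptf_bit hy2 (PTF.add (PTF.mul PTF.id.fst.snd hn2) PTF.id.snd)
  · refine PTF.all (PTF.range hn) (PTF.all (PTF.range hn1) (PTF.all (PTF.range hn2) ?_))
    refine PTF.or (PTF.not (PTF.and ?_ ?_)) ?_
    · exact ptf_bit hy3 (PTF.add (PTF.mul PTF.id.fst.fst.snd hn3) PTF.id.snd)
    · exact ptf_bit hy3 (PTF.add (PTF.mul PTF.id.fst.snd hn3) PTF.id.snd)
    · exact PTF.eq PTF.id.fst.fst.snd PTF.id.fst.snd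
  · refine PTF.all (PTF.range hn) (PTF.all (PTF.range hn1) (PTF.all (PTF.range hn2)
      (PTF.all (PTF.range hn3) ?_)))
    have hv : PTF (fun p : (((α × ℕ) × ℕ) × ℕ) × ℕ => p.1.1.1.2) := PTF.id.fst.fst.fst.snd
    have hw : PTF (fun p : (((α × ℕ) × ℕ) × ℕ) × ℕ => p.1.1.2) := PTF.id.fst.fst.snd
    have hi : PTF (fun p : (((α × ℕ) × ℕ) × ℕ) × ℕ => p.1.2) := PTF.id.fst.snd
    have hj : PTF (fun p : (((α × ℕ) × ℕ) × ℕ) × ℕ => p.2) := PTF.id.snd
    refine PTF.or (PTF.not (PTF.and ?_ ?_)) (PTF.ite ?_ ?_ ?_)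
    · exact ptf_bit hy4 (PTF.add (PTF.mul hv hn4) hi)
    · exact ptf_bit hy4 (PTF.add (PTF.mul hw hn4) hj)
    · exact PTF.eq hv hw
    · exact PTF.not (ptf_bit hx4 (PTF.add (PTF.mul hi hn4) hv))
    · exact PTF.eq (ptf_bit hx4 (PTF.add (PTF.mul hi hn4) hw))
        (PTF.not (ptf_bit hx4 (PTF.add (PTF.mul hj hn4) hv)))

lemma ptf_verifier : PTF verifier := by
  have h1 : PTF (fun a : List Bool × List Bool => List.range (a.1.length + 1)) :=
    PTF.range (PTF.succ (PTF.length PTF.id.fst))
  have h : PTF (fun a : List Bool × List Bool => (List.range (a.1.length + 1)).any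
      fun n => decide (n * n = a.1.length) && certB n a.1 a.2) := by
    refine PTF.any h1 (PTF.and ?_ ?_)
    · exact PTF.eq (PTF.mul PTF.id.snd PTF.id.snd) (PTF.length PTF.id.fst.fst)
    · exact ptf_certB PTF.id.snd PTF.id.fst.fst PTF.id.fst.snd
  exact h

end ptime

lemma getElem?_eq_bit {x : List Bool} {i : ℕ} (h : i < x.length) : x[i]? = some (bit x i) := by
  unfold bit
  rw [List.getElem?_eq_getElem h]
  rfl

lemma idx_lt {n : ℕ} (i j : Fin n) : i.1 * n + j.1 < n * n := by
  have h1 := j.2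
  have h2 : (i.1 + 1) * n ≤ n * n := Nat.mul_le_mul_right _ i.2
  rw [Nat.add_mul, one_mul] at h2
  omega

lemma mem_NLT_bit {n : ℕ} {x : List Bool} (hx : n * n = x.length) :
    x ∈ NLT ↔ ∃ g, RealBy (fun i j : Fin n => bit x (i.1 * n + j.1)) g :=
  mem_NLT_iff _ x hx.symm fun i j => getElem?_eq_bit (by rw [← hx]; exact idx_lt i j)

lemma exists_of_cert {n : ℕ} {x y : List Bool} (h : certB n x y = true) :
    ∃ g, RealBy (fun i j : Fin n => bit x (i.1 * n + j.1)) g := by
  unfold certB at h
  simp only [Bool.and_eq_true, List.all_eq_true, List.any_eq_true, List.mem_range] at h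
  obtain ⟨h1, h2, h3⟩ := h
  have h1' : ∀ v : Fin n, ∃ i : Fin n, bit y (v.1 * n + i.1) = true := fun v => by
    obtain ⟨i, hi, hb⟩ := h1 v.1 v.2
    exact ⟨⟨i, hi⟩, hb⟩
  choose g hg using h1'
  have hinj : Function.Injective g := by
    intro v w hvw
    have h4 := h2 v.1 v.2 w.1 w.2 (g v).1 (g v).2
    have h5 := hg w
    rw [← hvw] at h5
    rw [hg v, h5] at h4
    simp only [Bool.and_self, Bool.not_true, Bool.false_or, decide_eq_true_eq] at h4
    exact Fin.ext h4
  refine ⟨Equiv.ofBijective g (Finite.injective_iff_bijective.1 hinj), fun v => ?_,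
    fun v w hvw => ?_⟩
  · have h4 := h3 v.1 v.2 v.1 v.2 (g v).1 (g v).2 (g v).1 (g v).2
    rw [hg v] at h4
    simpa using h4
  · have h4 := h3 v.1 v.2 w.1 w.2 (g v).1 (g v).2 (g w).1 (g w).2
    rw [hg v, hg w, if_neg (fun h => hvw (Fin.ext h))] at h4
    simpa using h4

lemma cert_of_real {n : ℕ} {x : List Bool}
    (h : ∃ g, RealBy (fun i j : Fin n => bit x (i.1 * n + j.1)) g) :
    ∃ y : List Bool, y.length = n * n ∧ certB n x y = true := by
  obtain ⟨g, hg1, hg2⟩ := h
  set y := bits (fun v i : Fin n => decide (g v = i)) (List.finRange n) with hy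
  have hlen : y.length = n * n := by
    rw [hy, length_bits, List.length_finRange]
  have hbit : ∀ v i : Fin n, bit y (v.1 * n + i.1) = decide (g v = i) := by
    intro v i
    have h1 := getElem?_bits (fun v i : Fin n => decide (g v = i)) (List.finRange n)
      (Fin.cast (by simp) v) (Fin.cast (by simp) i)
    simp only [Fin.val_cast, List.length_finRange, List.getElem_finRange] at h1
    unfold bit
    rw [hy, h1]
    rfl
  refine ⟨y, hlen, ?_⟩
  unfold certB
  simp only [Bool.and_eq_true, List.all_eq_true, List.any_eq_true, List.mem_range]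
  refine ⟨fun v hv => ?_, fun v hv w hw i hi => ?_, fun v hv w hw i hi j hj => ?_⟩
  · refine ⟨(g ⟨v, hv⟩).1, (g ⟨v, hv⟩).2, ?_⟩
    rw [hbit ⟨v, hv⟩ (g ⟨v, hv⟩)]
    simp
  · rw [hbit ⟨v, hv⟩ ⟨i, hi⟩, hbit ⟨w, hw⟩ ⟨i, hi⟩]
    by_cases h1 : g ⟨v, hv⟩ = ⟨i, hi⟩ ∧ g ⟨w, hw⟩ = ⟨i, hi⟩
    · have h2 := g.injective (h1.1.trans h1.2.symm)
      rw [Fin.mk.injEq] at h2
      simp [h2]
    · by_cases h2 : g ⟨v, hv⟩ = ⟨i, hi⟩
      · have h3 : g ⟨w, hw⟩ ≠ ⟨i, hi⟩ := fun h3 => h1 ⟨h2, h3⟩
        simp [h3]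
      · simp [h2]
  · rw [hbit ⟨v, hv⟩ ⟨i, hi⟩, hbit ⟨w, hw⟩ ⟨j, hj⟩]
    by_cases h1 : g ⟨v, hv⟩ = ⟨i, hi⟩
    · by_cases h2 : g ⟨w, hw⟩ = ⟨j, hj⟩
      · split_ifs with h3
        · have h4 := hg1 ⟨v, hv⟩
          rw [h1] at h4
          simp only at h4
          simp [h4]
        · have h4 := hg2 ⟨v, hv⟩ ⟨w, hw⟩ (fun h => h3 (by rw [Fin.mk.injEq] at h; exact h))
          rw [h1, h2] at h4
          simp only at h4
          simp [h4]
      · simp [h2]
    · simp [h1]

/-- NLT is in NP. -/
theorem nlt_inNP : InNP NLT := by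
  refine ⟨Polynomial.X, verifier, tm2_of_ptf ptf_verifier, fun x => ?_⟩
  simp only [verifier, List.any_eq_true, Bool.and_eq_true, decide_eq_true_eq, List.mem_range,
    Polynomial.eval_X]
  constructor
  · intro hx
    have hx' := hx
    obtain ⟨n, N, hN, -⟩ := hx'
    have hn : n * n = x.length := hN.1.symm
    obtain ⟨y, hy1, hy2⟩ := cert_of_real ((mem_NLT_bit hn).1 hx)
    refine ⟨y, by rw [hy1, hn], n, ?_, hn, hy2⟩
    have := Nat.le_mul_self n
    omega
  · rintro ⟨y, -, n, -, hn, hc⟩
    exact (mem_NLT_bit hn).2 (exists_of_cert hc)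

/-! ### Hardness -/

section

variable (M : TM2ComputableAux (Bool ⊕ Bool) Bool)

/-- All values. -/
noncomputable def allD : List (D M.tm) :=
  haveI : Fintype (D M.tm) := Fintype.ofFinite _
  Finset.univ.toList

lemma mem_allD (d : D M.tm) : d ∈ allD M := by
  unfold allD; simp

lemma nodup_allD : (allD M).Nodup := by
  unfold allD; exact Finset.nodup_toList _

/-- All pairs of a position and a value. -/
noncomputable def allM : List (Fin 5 × D M.tm) :=
  haveI : Fintype (D M.tm) := Fintype.ofFinite _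
  Finset.univ.toList

lemma mem_allM (p : Fin 5 × D M.tm) : p ∈ allM M := by
  unfold allM; simp

/-- The allowed values of a constraint. -/
noncomputable def allow (c : CType) : List (Five (D M.tm)) :=
  haveI : Fintype (Five (D M.tm)) := Fintype.ofFinite _
  haveI := Classical.decPred (fun d : Five (D M.tm) => okF M c d)
  Finset.univ.toList.filter fun d => decide (okF M c d)

lemma mem_allow (c : CType) (d : Five (D M.tm)) : d ∈ allow M c ↔ okF M c d := by
  unfold allow
  rw [List.mem_filter]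
  simp

lemma nodup_allow (c : CType) : (allow M c).Nodup := by
  unfold allow
  exact (Finset.nodup_toList _).filter _

/-- The triples of an input. -/
noncomputable def trip (P N : ℕ) (x : List Bool) :
    List (Nm (N0 CType Var (D M.tm)) × Nm (N0 CType Var (D M.tm)) × Nm (N0 CType Var (D M.tm))) :=
  triples (cspL (grid (N + 1)) (allD M) (allM M) (allow M) (cons P N x))

lemma trip_iff (P N : ℕ) (x : List Bool) :
    (∃ τ, ∀ tr ∈ trip M P N x, One3 τ tr) ↔ ∃ α : Var → D M.tm, Sat M x P N α := by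
  unfold trip
  rw [triples_iff, cspL_iff _ _ _ _ _ (mem_allD M) (nodup_allD M) (mem_allM M) (nodup_allow M)]
  · refine exists_congr fun α => ?_
    rw [sat_iff_cons]
    refine forall_congr' fun c => forall_congr' fun _ => ?_
    rw [mem_allow]
  · intro c hc
    simp only [cons, List.mem_append, List.mem_map, List.mem_filter, List.mem_range,
      decide_eq_true_eq, List.mem_cons, List.not_mem_nil, or_false] at hc
    simp only [mem_grid]
    rcases hc with ⟨v, hv, rfl⟩ | ⟨i, hi, rfl⟩ | ⟨i, ⟨hi, hi'⟩, rfl⟩ | rfl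
    · rw [mem_grid] at hv
      intro m
      fin_cases m <;> simp only [cget] <;> omega
    · intro m
      fin_cases m <;> simp only [cget] <;> omega
    · intro m
      fin_cases m <;> simp only [cget] <;> omega
    · intro m
      fin_cases m <;> simp only [cget] <;> omega

noncomputable instance instDecEqNm :
    DecidableEq (Nm (N0 CType Var (D M.tm))) := Classical.decEq _

noncomputable instance instPEncNm : PEnc (Nm (N0 CType Var (D M.tm))) := inferInstance

lemma ptf_trip {α : Type*} [PEnc α] {x : α → List Bool} {P N : α → ℕ}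
    (hx : PTF x) (hP : PTF P) (hN : PTF N) : PTF (fun a => trip M (P a) (N a) (x a)) := by
  unfold trip
  exact ptf_triples (ptf_cspL (ptf_grid (PTF.succ hN)) (ptf_cons hx hP hN))

end

/-- NLT is NP-hard. -/
theorem nlt_hard (L : Set (List Bool)) (hL : InNP L) : Reduces L NLT := by
  obtain ⟨p, R, ⟨H⟩, hR⟩ := hL
  let M := H.toTM2ComputableAux
  let q : Polynomial ℕ := Polynomial.C (bnd H.tm) * H.time.comp (Polynomial.X + p) +
    (Polynomial.X + p)
  let P : List Bool → ℕ := fun x => p.eval x.length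
  let N : List Bool → ℕ := fun x => q.eval x.length
  have hN1 : ∀ x : List Bool, bnd H.tm * H.time.eval (x.length + P x) ≤ N x := by
    intro x
    simp only [N, P, q, Polynomial.eval_add, Polynomial.eval_mul, Polynomial.eval_C,
      Polynomial.eval_comp, Polynomial.eval_X]
    omega
  have hN2 : ∀ x : List Bool, x.length + P x ≤ N x := by
    intro x
    simp only [N, P, q, Polynomial.eval_add, Polynomial.eval_mul, Polynomial.eval_C,
      Polynomial.eval_comp, Polynomial.eval_X]
    omega
  refine ⟨fun x => inst (trip M (P x) (N x) x), ?_, ?_⟩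
  · -- polynomial time
    refine tm2_of_ptf_str ?_
    refine PTF.strOfList (ptf_inst (ptf_trip M ?_ ?_ ?_))
    · exact PTF.strToList PTF.id
    · exact PTF.polyEval p (PTF.length (PTF.strToList PTF.id))
    · exact PTF.polyEval q (PTF.length (PTF.strToList PTF.id))
  · intro x
    rw [hR x, sat_iff H x (P x) (N x) (hN1 x) (hN2 x), ← trip_iff]
    exact (inst_iff _).symm

/-- **The result.** The tournament neighbourhood list problem is NP-complete under polynomial-time
many-one reductions. -/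
theorem result : IsNPComplete NLT := ⟨nlt_inNP, nlt_hard⟩

end Pool.Agent.Results.MP_398f0f_lc.NPComplete
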