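import Mathlib
import Pool.Agent.Helper85.TournList

set_option autoImplicit false

/-!
# Pairs of tournaments realising the same list of out-neighbourhoods

For a tournament `T` on a finite set `V` we determine all tournaments `T'` on `V` with the same
list of out-neighbourhoods: they are exactly the digraphs `T' v w ↔ T (g v) w` where `g` is a
permutation of `V` such that every cycle of `g` has odd length and carries the rotational
tournament (`v → g^j v` iff `j` odd), and between different cycles the arcs of `T` are invariant
under `(v, u) ↦ (g v, g⁻¹ u)`.  In particular any two realisations differ by a permutation of odd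
order.
-/

namespace Pool.Agent.Results.MP_398f0f_lc.PairCharacterisation

open Pool.Agent.Helper85.TournList

theorem result {V : Type*} [Finite V] (T T' : V → V → Prop) (hT : IsTournament T) :
    (IsTournament T' ∧ ∃ L : V → Set V, Realises L T ∧ Realises L T') ↔
      ∃ g : Equiv.Perm V, (∀ v w, T' v w ↔ T (g v) w) ∧ RotationalOn T g ∧ Linked T g :=
  characterisation T T' hT

end Pool.Agent.Results.MP_398f0f_lc.PairCharacterisation
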