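import Mathlib
import Pool.Agent.Helper85.TournList

set_option autoImplicit false

/-!
# Two realisations differ by reversing disjoint rotational odd cycles

If two tournaments `T, T'` on a finite set realise the same list of out-neighbourhoods, then `T'`
is isomorphic to the tournament obtained from `T` by reversing all arcs inside the cycles of a
permutation `g` (all of odd length and inducing rotational tournaments in `T`); the isomorphism is
a square root of `g`.
-/

namespace Pool.Agent.Results.MP_398f0f_lc.ReversalIsomorphism

open Pool.Agent.Helper85.TournList

theorem result {V : Type*} [Finite V] (T T' : V → V → Prop) (hT : IsTournament T)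
    (hT' : IsTournament T') (hL : ∃ L : V → Set V, Realises L T ∧ Realises L T') :
    ∃ g ρ : Equiv.Perm V, RotationalOn T g ∧ Linked T g ∧ ρ * ρ = g ∧
      ∀ v w, T' v w ↔ reverseInside T g (ρ v) (ρ w) :=
  reversal_of_realises T T' hT hT' hL

end Pool.Agent.Results.MP_398f0f_lc.ReversalIsomorphism
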